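import Pool.Agent.helper74.MQ.Spec
import Pool.Agent.helper34.MP.NHP

/-!
# Project mq (MP_af9036_an), module LDIS: trajectories in strips are disjoint (helper78)
-/

set_option autoImplicit false

open Complex Metric Set Filter Topology MeasureTheory MPS

noncomputable section

namespace MQ

theorem LDIS_open (a c : ℝ) : IsOpen {w : ℂ | a < w.im ∧ w.im < c} :=
  (isOpen_lt continuous_const Complex.continuous_im).inter
    (isOpen_lt Complex.continuous_im continuous_const)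

/-- continuation along horizontal lines -/
theorem LDIS_G (hNU : NU_stmt) {k : ℕ} [NeZero k] {b g : ZMod k → ℂ} {ψ ψ' : ℂ → ℂ} {S : ℂ}
    {a c : ℝ} {χ φ : ℂ → ℂ} {Ω : Set ℂ} (hs : IsStrip b g ψ ψ' S a c χ) (hΩ : IsOpen Ω)
    (hφ : IsNat b g φ Ω) {w v : ℂ} (h1 : a < w.im) (h2 : w.im < c) (hv : v ∈ Ω)
    (he : χ w = φ v) : ∃ s : ℂ, (s = 1 ∨ s = -1) ∧ ∀ h : ℝ,
      (∀ t ∈ Icc (0 : ℝ) 1, v + s * ((t : ℂ) * (h : ℂ)) ∈ Ω) →
      χ (w + (h : ℂ)) = φ (v + s * (h : ℂ)) := by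
  obtain ⟨s, hs1, -, -, hseg⟩ := hNU k b g χ φ {w : ℂ | a < w.im ∧ w.im < c} Ω w v
    (LDIS_open a c) hΩ hs.nat hφ ⟨h1, h2⟩ hv he
  refine ⟨s, hs1, fun h hh => (hseg (h : ℂ) ?_).1⟩
  intro t ht
  refine ⟨?_, hh t ht⟩
  have e : (w + (t : ℂ) * (h : ℂ)).im = w.im := by simp
  show a < (w + (t : ℂ) * (h : ℂ)).im ∧ (w + (t : ℂ) * (h : ℂ)).im < c
  rw [e]
  exact ⟨h1, h2⟩

theorem LDIS_left {k : ℕ} [NeZero k] {b g : ZMod k → ℂ} {ψ ψ' : ℂ → ℂ} {S : ℂ}
    {a c : ℝ} {χ : ℂ → ℂ} (hs : IsStrip b g ψ ψ' S a c χ) {w : ℂ} (h1 : a < w.im)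
    (h2 : w.im < c) {t : ℝ} (ht : t < -w.re) : χ (w + (t : ℂ)) = hat ψ (w + (t : ℂ)) := by
  have e : (w + (t : ℂ)).im = w.im := by simp
  have e' : (w + (t : ℂ)).re = w.re + t := by simp
  refine hs.left _ (by rw [e]; exact h1) (by rw [e]; exact h2) ?_
  rw [e']
  linarith

theorem LDIS_right {k : ℕ} [NeZero k] {b g : ZMod k → ℂ} {ψ ψ' : ℂ → ℂ} {S : ℂ}
    {a c : ℝ} {χ : ℂ → ℂ} (hs : IsStrip b g ψ ψ' S a c χ) {w : ℂ} (h1 : a < w.im)
    (h2 : w.im < c) {t : ℝ} (ht : S.re - w.re < t) :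
    χ (w + (t : ℂ)) = hat ψ' (S - w + ((-t : ℝ) : ℂ)) := by
  have e : (w + (t : ℂ)).im = w.im := by simp
  have e' : (w + (t : ℂ)).re = w.re + t := by simp
  have e'' : S - (w + (t : ℂ)) = S - w + ((-t : ℝ) : ℂ) := by
    push_cast
    ring
  rw [← e'']
  refine hs.right _ (by rw [e]; exact h1) (by rw [e]; exact h2) ?_
  rw [e']
  linarith

theorem LDIS_limL {k : ℕ} [NeZero k] {b g : ZMod k → ℂ} {i : ZMod k} {ψ ψ' : ℂ → ℂ} {S : ℂ}
    {a c : ℝ} {χ : ℂ → ℂ} (hs : IsStrip b g ψ ψ' S a c χ) (hψ : PN b g i ψ 1) {w : ℂ}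
    (h1 : a < w.im) (h2 : w.im < c) :
    Tendsto (fun t : ℝ => χ (w + (t : ℂ))) atBot (𝓝 (b i)) := by
  refine (NHP_lim hψ w).congr' ?_
  filter_upwards [eventually_lt_atBot (-w.re)] with t ht
  exact (LDIS_left hs h1 h2 ht).symm

theorem LDIS_limR {k : ℕ} [NeZero k] {b g : ZMod k → ℂ} {l : ZMod k} {ψ ψ' : ℂ → ℂ} {S : ℂ}
    {a c : ℝ} {χ : ℂ → ℂ} (hs : IsStrip b g ψ ψ' S a c χ) (hψ : PN b g l ψ' 1) {w : ℂ}
    (h1 : a < w.im) (h2 : w.im < c) :
    Tendsto (fun t : ℝ => χ (w + (t : ℂ))) atTop (𝓝 (b l)) := by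
  have h3 : Tendsto (fun t : ℝ => hat ψ' (S - w + ((-t : ℝ) : ℂ))) atTop (𝓝 (b l)) :=
    (NHP_lim hψ (S - w)).comp tendsto_neg_atTop_atBot
  refine h3.congr' ?_
  filter_upwards [eventually_gt_atTop (S.re - w.re)] with t ht
  exact (LDIS_right hs h1 h2 ht).symm

theorem LDIS_exp {x y z : ℂ} (h : Complex.exp (x + z) = Complex.exp (y + z)) :
    Complex.exp x = Complex.exp y := by
  rw [Complex.exp_add, Complex.exp_add] at h
  exact mul_right_cancel₀ (Complex.exp_ne_zero z) h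

theorem LDIS_inj (hNI : NI_stmt) {k : ℕ} [NeZero k] {b g : ZMod k → ℂ} {i : ZMod k}
    {ψ : ℂ → ℂ} (hψ : PN b g i ψ 1) {x y : ℂ} (hx : x.re < 0) (hy : y.re < 0)
    (h : hat ψ x = hat ψ y) : Complex.exp x = Complex.exp y := by
  have hb : ∀ z : ℂ, z.re < 0 → Complex.exp z ∈ ball (0 : ℂ) 1 := by
    intro z hz
    rw [mem_ball_zero_iff, Complex.norm_exp, Real.exp_lt_one_iff]
    exact hz
  exact hNI k b g i ψ 1 hψ (hb x hx) (hb y hy) h

theorem LDIS_HP : IsOpen {w : ℂ | w.re < 0} := isOpen_lt Complex.continuous_re continuous_const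

/-- comparison of a strip map with a pole map -/
theorem LDIS_pole (hNU : NU_stmt) (hNH : NH_stmt) {k : ℕ} [NeZero k] {b g : ZMod k → ℂ}
    {j : ZMod k} {ψ ψ' φ : ℂ → ℂ} {S : ℂ} {a c : ℝ} {χ : ℂ → ℂ}
    (hs : IsStrip b g ψ ψ' S a c χ) (hφ : PN b g j φ 1) {w v : ℂ} (h1 : a < w.im)
    (h2 : w.im < c) (hv : v.re < 0) (he : χ w = hat φ v) :
    (∀ t : ℝ, t ≤ 0 → χ (w + (t : ℂ)) = hat φ (v + (t : ℂ))) ∨
    (∀ t : ℝ, 0 ≤ t → χ (w + (t : ℂ)) = hat φ (v + ((-t : ℝ) : ℂ))) := by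
  have hn := (hNH k b g j φ 1 hφ).1
  rw [Real.log_one] at hn
  obtain ⟨s, hs1, hh⟩ := LDIS_G hNU hs LDIS_HP hn h1 h2 hv he
  rcases hs1 with rfl | rfl
  · left
    intro t ht
    have := hh t (by
      intro r hr
      show (v + 1 * ((r : ℂ) * (t : ℂ))).re < 0
      have e : (v + 1 * ((r : ℂ) * (t : ℂ))).re = v.re + r * t := by simp
      rw [e]
      have := mul_nonpos_of_nonneg_of_nonpos hr.1 ht
      linarith)
    rw [one_mul] at this
    exact this
  · right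
    intro t ht
    have := hh t (by
      intro r hr
      show (v + -1 * ((r : ℂ) * (t : ℂ))).re < 0
      have e : (v + -1 * ((r : ℂ) * (t : ℂ))).re = v.re - r * t := by simp; ring
      rw [e]
      have := mul_nonneg hr.1 ht
      linarith)
    have e : v + -1 * (t : ℂ) = v + ((-t : ℝ) : ℂ) := by
      push_cast
      ring
    rw [e] at this
    exact this

theorem LDIS (hNU : NU_stmt) (hNH : NH_stmt) (hNI : NI_stmt) : LDIS_stmt := by
  intro k _ b g ψ hF i l l' S₁ S₂ a₁ c₁ a₂ c₂ χ₁ χ₂ hil hil' hs1 hs2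
  have hpn : ∀ j, PN b g j (ψ j) 1 := fun j => (hF.mx j).pn
  have hbne : ∀ x y : ZMod k, x ≠ y → b x ≠ b y := fun x y h h' => h (hF.inj h')
  refine ⟨?_, ?_, ?_, ?_⟩
  · intro w w' h1 h2 h3 h4 he
    obtain ⟨s, hs, hh⟩ := LDIS_G hNU hs1 (LDIS_open a₂ c₂) hs2.nat h1 h2
      (show w' ∈ {w : ℂ | a₂ < w.im ∧ w.im < c₂} from ⟨h3, h4⟩) he
    rcases hs with rfl | rfl
    · have hall : ∀ t : ℝ, χ₁ (w + (t : ℂ)) = χ₂ (w' + (t : ℂ)) := by
        intro t
        have := hh t (by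
          intro r _
          have e : (w' + 1 * ((r : ℂ) * (t : ℂ))).im = w'.im := by simp
          show a₂ < (w' + 1 * ((r : ℂ) * (t : ℂ))).im ∧ (w' + 1 * ((r : ℂ) * (t : ℂ))).im < c₂
          rw [e]
          exact ⟨h3, h4⟩)
        rw [one_mul] at this
        exact this
      obtain ⟨t, ht1, ht2⟩ : ∃ t : ℝ, t < -w.re ∧ t < -w'.re :=
        ⟨min (-w.re) (-w'.re) - 1, by linarith [min_le_left (-w.re) (-w'.re)],
          by linarith [min_le_right (-w.re) (-w'.re)]⟩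
      have e1 := hall t
      rw [LDIS_left hs1 h1 h2 ht1, LDIS_left hs2 h3 h4 ht2] at e1
      refine LDIS_exp (z := (t : ℂ)) (LDIS_inj hNI (hpn i) ?_ ?_ e1)
      · rw [Complex.add_re, Complex.ofReal_re]
        linarith
      · rw [Complex.add_re, Complex.ofReal_re]
        linarith
    · exfalso
      have hall : ∀ t : ℝ, χ₁ (w + (t : ℂ)) = χ₂ (w' + ((-t : ℝ) : ℂ)) := by
        intro t
        have := hh t (by
          intro r _
          have e : (w' + -1 * ((r : ℂ) * (t : ℂ))).im = w'.im := by simp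
          show a₂ < (w' + -1 * ((r : ℂ) * (t : ℂ))).im ∧ (w' + -1 * ((r : ℂ) * (t : ℂ))).im < c₂
          rw [e]
          exact ⟨h3, h4⟩)
        have e : w' + -1 * (t : ℂ) = w' + ((-t : ℝ) : ℂ) := by
          push_cast
          ring
        rw [e] at this
        exact this
      have l1 := LDIS_limL hs1 (hpn i) h1 h2
      have l2 : Tendsto (fun t : ℝ => χ₂ (w' + ((-t : ℝ) : ℂ))) atBot (𝓝 (b l')) :=
        (LDIS_limR hs2 (hpn l') h3 h4).comp tendsto_neg_atBot_atTop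
      have l3 : Tendsto (fun t : ℝ => χ₁ (w + (t : ℂ))) atBot (𝓝 (b l')) :=
        l2.congr fun t => (hall t).symm
      exact hbne i l' hil' (tendsto_nhds_unique l1 l3)
  · intro w v h1 h2 hv he
    rcases LDIS_pole hNU hNH hs1 (hpn i) h1 h2 hv he with h | h
    · obtain ⟨t, ht1, ht2⟩ : ∃ t : ℝ, t < -w.re ∧ t ≤ 0 :=
        ⟨min (-w.re) 0 - 1, by linarith [min_le_left (-w.re) 0],
          by linarith [min_le_right (-w.re) 0]⟩
      have e1 := h t ht2
      rw [LDIS_left hs1 h1 h2 ht1] at e1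
      refine LDIS_exp (z := (t : ℂ)) (LDIS_inj hNI (hpn i) ?_ ?_ e1.symm)
      · rw [Complex.add_re, Complex.ofReal_re]
        linarith
      · rw [Complex.add_re, Complex.ofReal_re]
        linarith
    · exfalso
      have l1 := LDIS_limR hs1 (hpn l) h1 h2
      have l2 : Tendsto (fun t : ℝ => hat (ψ i) (v + ((-t : ℝ) : ℂ))) atTop (𝓝 (b i)) :=
        (NHP_lim (hpn i) v).comp tendsto_neg_atTop_atBot
      have l3 : Tendsto (fun t : ℝ => χ₁ (w + (t : ℂ))) atTop (𝓝 (b i)) := by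
        refine l2.congr' ?_
        filter_upwards [eventually_ge_atTop (0 : ℝ)] with t ht
        exact (h t ht).symm
      exact hbne l i (Ne.symm hil) (tendsto_nhds_unique l1 l3)
  · intro w v h1 h2 hv he
    rcases LDIS_pole hNU hNH hs1 (hpn l) h1 h2 hv he with h | h
    · exfalso
      have l1 := LDIS_limL hs1 (hpn i) h1 h2
      have l3 : Tendsto (fun t : ℝ => χ₁ (w + (t : ℂ))) atBot (𝓝 (b l)) := by
        refine (NHP_lim (hpn l) v).congr' ?_
        filter_upwards [eventually_le_atBot (0 : ℝ)] with t ht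
        exact (h t ht).symm
      exact hbne i l hil (tendsto_nhds_unique l1 l3)
    · obtain ⟨t, ht1, ht2⟩ : ∃ t : ℝ, S₁.re - w.re < t ∧ 0 ≤ t :=
        ⟨max (S₁.re - w.re) 0 + 1, by linarith [le_max_left (S₁.re - w.re) 0],
          by linarith [le_max_right (S₁.re - w.re) 0]⟩
      have e1 := h t ht2
      rw [LDIS_right hs1 h1 h2 ht1] at e1
      refine LDIS_exp (z := ((-t : ℝ) : ℂ)) (LDIS_inj hNI (hpn l) ?_ ?_ e1.symm)
      · rw [Complex.add_re, Complex.ofReal_re]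
        linarith
      · rw [Complex.add_re, Complex.ofReal_re, Complex.sub_re]
        linarith
  · intro w j h1 h2 hji hjl hm
    obtain ⟨u, hu, huv⟩ := hm
    have hu0 : u ≠ 0 := by
      rintro rfl
      exact hs1.nat.av w ⟨h1, h2⟩ j (by rw [← huv, (hpn j).val])
    have hexp : Complex.exp (Complex.log u) = u := Complex.exp_log hu0
    have hre : (Complex.log u).re < 0 := by
      rw [Complex.log_re]
      exact Real.log_neg (norm_pos_iff.2 hu0) (mem_ball_zero_iff.1 hu)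
    have he : χ₁ w = hat (ψ j) (Complex.log u) := by
      show χ₁ w = ψ j (Complex.exp (Complex.log u))
      rw [hexp]
      exact huv.symm
    rcases LDIS_pole hNU hNH hs1 (hpn j) h1 h2 hre he with h | h
    · have l1 := LDIS_limL hs1 (hpn i) h1 h2
      have l3 : Tendsto (fun t : ℝ => χ₁ (w + (t : ℂ))) atBot (𝓝 (b j)) := by
        refine (NHP_lim (hpn j) (Complex.log u)).congr' ?_
        filter_upwards [eventually_le_atBot (0 : ℝ)] with t ht
        exact (h t ht).symm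
      exact hbne i j (Ne.symm hji) (tendsto_nhds_unique l1 l3)
    · have l1 := LDIS_limR hs1 (hpn l) h1 h2
      have l2 : Tendsto (fun t : ℝ => hat (ψ j) (Complex.log u + ((-t : ℝ) : ℂ))) atTop
          (𝓝 (b j)) := (NHP_lim (hpn j) (Complex.log u)).comp tendsto_neg_atTop_atBot
      have l3 : Tendsto (fun t : ℝ => χ₁ (w + (t : ℂ))) atTop (𝓝 (b j)) := by
        refine l2.congr' ?_
        filter_upwards [eventually_ge_atTop (0 : ℝ)] with t ht
        exact (h t ht).symm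
      exact hbne l j (Ne.symm hjl) (tendsto_nhds_unique l1 l3)

end MQ
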